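import Pool.Agent.Q8.GF.PM

/-!
The algebras `R / I_{A,d}` for integral matrices `A` with unimodular principal minors: all maps
`L ^ k : B_i → B_{i+k}` from degree at most one, or to degree at least `σ - 1`, have maximal rank,
for quadrics (all `d_i = 1`) in any number of variables and for all `d` in at most five variables.
-/

open MvPolynomial

namespace Pool.Agent.Results.MP_b56913_ag.FromDegreeOne

/-- Let `A` be an integral square matrix of size `n + 2` with all principal minors `1` or `-1`,
`1 ≤ d_0 ≤ … ≤ d_{n+1}` (this is no restriction, by a simultaneous permutation of the rows and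
columns of `A`), `K` a field of characteristic zero,
`I_{A,d} = (x_i ^ {d_i} ∑_j a_ij x_j : 0 ≤ i ≤ n + 1)` in `R = K[x_0, …, x_{n+1}]`, `B = R / I_{A,d}`
and `σ = ∑ d_j`. Assume `n ≤ 3` (at most five variables), or that for each `1 ≤ k ≤ n - 1` one of
the following holds:

* `k d_n ≤ d_0 + … + d_k` (for all `k`, if all `d_i` are equal);
* `k = n - 1` and `n d_{n-1} + d_1 ≤ σ`.

Then there is a linear form `L` such that all maps `L ^ k : B_i → B_{i+k}` with `i ≤ 1` or
`i + k ≥ σ - 1` are injective or surjective. -/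
theorem result (K : Type) [Field K] [CharZero K] (n : ℕ)
    (A : Matrix (Fin (n + 2)) (Fin (n + 2)) ℤ)
    (hA : ∀ S : Finset (Fin (n + 2)),
      (A.submatrix (fun i : S => (i : Fin (n + 2))) fun j : S => (j : Fin (n + 2))).det = 1 ∨
      (A.submatrix (fun i : S => (i : Fin (n + 2))) fun j : S => (j : Fin (n + 2))).det = -1)
    (d : Fin (n + 2) → ℕ) (hd : ∀ i, 1 ≤ d i) (hmono : Monotone d)
    (h : ∀ k (_ : 1 ≤ k) (_ : k + 1 ≤ n),
      k * d (Fin.last n).castSucc ≤
        ∑ i ∈ Finset.univ.filter (fun i : Fin (n + 2) => (i : ℕ) ≤ k), d i ∨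
      (k + 1 = n ∧ n * d ⟨k, by omega⟩ + d 1 ≤ ∑ j, d j) ∨ n ≤ 3) :
    ∃ L : MvPolynomial (Fin (n + 2)) K, L.IsHomogeneous 1 ∧ ∀ i k : ℕ,
      (i ≤ 1 ∨ ∑ j, d j ≤ i + k + 1) →
        (∀ g ∈ homogeneousSubmodule (Fin (n + 2)) K i,
          L ^ k * g ∈ Ideal.span (Set.range fun i => X i ^ d i * ∑ j, C (A i j : K) * X j) →
            g ∈ Ideal.span (Set.range fun i => X i ^ d i * ∑ j, C (A i j : K) * X j)) ∨
        (∀ h ∈ homogeneousSubmodule (Fin (n + 2)) K (i + k),
          ∃ g ∈ homogeneousSubmodule (Fin (n + 2)) K i, h - L ^ k * g ∈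
            Ideal.span (Set.range fun i => X i ^ d i * ∑ j, C (A i j : K) * X j)) := by
  have hA' : ∀ S : Finset (Fin (n + 2)), ((A.map (Int.castRingHom K)).submatrix
      (fun i : S => (i : Fin (n + 2))) fun j : S => (j : Fin (n + 2))).det ≠ 0 := by
    intro S h0
    have h1 := RingHom.map_det (Int.castRingHom K)
      (A.submatrix (fun i : S => (i : Fin (n + 2))) fun j : S => (j : Fin (n + 2)))
    have h2 : (Int.castRingHom K).mapMatrix
        (A.submatrix (fun i : S => (i : Fin (n + 2))) fun j : S => (j : Fin (n + 2))) =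
        (A.map (Int.castRingHom K)).submatrix
          (fun i : S => (i : Fin (n + 2))) fun j : S => (j : Fin (n + 2)) := rfl
    rw [h2, h0] at h1
    rcases hA S with h3 | h3
    · rw [h3, map_one] at h1
      exact one_ne_zero h1
    · rw [h3, map_neg, map_one, neg_eq_zero] at h1
      exact one_ne_zero h1
  have hhom : ∀ i, (X i ^ d i * ∑ j, C (A i j : K) * X j :
      MvPolynomial (Fin (n + 2)) K).IsHomogeneous (d i + 1) := by
    intro i
    apply IsHomogeneous.mul
    · have := (isHomogeneous_X K i).pow (d i)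
      rwa [one_mul] at this
    · apply IsHomogeneous.sum
      intro j _
      have h1 := (isHomogeneous_C (Fin (n + 2)) (A i j : K)).mul (isHomogeneous_X K j)
      rwa [zero_add] at h1
  have h1 := Pool.Agent.Q8.GF.main9 (d := fun i => d i + 1) hhom (fun i => Nat.succ_le_succ (hd i))
    (Pool.Agent.Q8.GF.PM.reg_gen (A.map (Int.castRingHom K)) d hA')
    (fun i j hij => Nat.succ_le_succ (hmono hij)) (fun k hk1 hk2 => by
      simp only [Nat.add_sub_cancel]
      rcases h k hk1 hk2 with h1 | h1 | h1
      · exact Or.inl h1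
      · exact Or.inr (Or.inr (Or.inl h1))
      · exact Or.inr (Or.inr (Or.inr h1)))
  simp only [Nat.add_sub_cancel] at h1
  exact h1

end Pool.Agent.Results.MP_b56913_ag.FromDegreeOne
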